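import Pool.Agent.Helper88.SQS.Final

/-!
# Steiner quadruple systems of order 43 ^ d + 1 with all derived systems of minimal chromatic number
-/

set_option autoImplicit false

namespace Pool.Agent.Results.MP_822206_co.HananiDerived43

open Pool.Agent.Helper88.SQS

/-- For every `d ≥ 1` there is a Steiner quadruple system of order `n = 43 ^ d + 1` all of whose derived
triple systems have (block) chromatic number exactly `n / 2`. -/
theorem result (d : ℕ) (hd : 1 ≤ d) : ∃ B : Finset (Finset (Fin (43 ^ d + 1))),
    IsSQS B ∧ ∀ x : Fin (43 ^ d + 1), chromaticNumber (derived B x) = (43 ^ d + 1) / 2 :=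
  good43 d hd

end Pool.Agent.Results.MP_822206_co.HananiDerived43
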